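import Pool.Agent.Work.MP_4d52ff_nt.R.Tuples3

set_option autoImplicit false

namespace Pool.Agent.Results.MP_4d52ff_nt.AlmostAllTuples

/-- the multiple zeta value `ζ(k 0, ..., k (d-1))` -/
noncomputable def mzv {d : ℕ} (k : Fin d → ℕ) : ℝ :=
  ∑' n : {n : Fin d → ℕ // StrictAnti n ∧ ∀ i, 1 ≤ n i}, ∏ i, (((n.1 i : ℕ) : ℝ) ^ (k i))⁻¹

/-- the sum of the `n + 1` multiple zeta values obtained by inserting the argument `a` into `x` -/
noncomputable def insSum {n : ℕ} (a : ℕ) (x : Fin n → ℕ) : ℝ :=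
  ∑ i : Fin (n + 1), mzv (Fin.insertNth (α := fun _ => ℕ) i a x)

/-- the pairs `(a, x)` of `a` and a family `x` of length `n`, all entries in `[2, N]`, where `a` is
even unless `n = 1` -/
def pairs (n N : ℕ) : Finset (ℕ × (Fin n → ℕ)) :=
  ((Finset.Icc 2 N) ×ˢ (Fintype.piFinset fun _ => Finset.Icc 2 N)).filter
    fun p => Even p.1 ∨ n = 1

open Classical in
/-- For almost all `r`-tuples `(a_j; x_j)` the numbers `insSum a_j x_j` are linearly independent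
over the field of algebraic numbers modulo `Y`. -/
theorem result (n : ℕ) : ∃ C : ℝ, ∀ N r : ℕ, 1 ≤ N →
    ∀ Y : Submodule (algebraicClosure ℚ ℂ) ℂ, Module.Finite (algebraicClosure ℚ ℂ) Y →
    ∀ G : Finset (Fin r → ℕ × (Fin n → ℕ)),
    (∀ t ∈ G, (∀ j, t j ∈ pairs n N) ∧
      ¬ LinearIndependent (algebraicClosure ℚ ℂ)
          (fun j => Y.mkQ ((insSum (t j).1 (t j).2 : ℝ) : ℂ))) →
    (G.card : ℝ) ≤ C * (r : ℝ) *
      (((Module.finrank (algebraicClosure ℚ ℂ) Y : ℝ) + (r : ℝ) + 1) / (N : ℝ)) ^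
        ((1 : ℝ) / 2 ^ n) * ((pairs n N).card : ℝ) ^ r := by
  obtain ⟨C, -, h⟩ := Pool.Agent.Work.MP_4d52ff_nt.R.tuples3 n
  exact ⟨C, h⟩

end Pool.Agent.Results.MP_4d52ff_nt.AlmostAllTuples
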