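import Pool.Agent.Work.MP_4d52ff_nt.EP.Final

set_option autoImplicit false

namespace Pool.Agent.Results.MP_4d52ff_nt.EulerPairs

/-- the multiple zeta value `ζ(k 0, ..., k (d-1))` -/
noncomputable def mzv {d : ℕ} (k : Fin d → ℕ) : ℝ :=
  ∑' n : {n : Fin d → ℕ // StrictAnti n ∧ ∀ i, 1 ≤ n i}, ∏ i, (((n.1 i : ℕ) : ℝ) ^ (k i))⁻¹

open Classical in
/-- Let `Y` be a space of finite dimension `h` over the field of algebraic numbers, let `c i` be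
rational numbers `≥ 1/2 - i` and `n ≥ 1`.  Among the `2 n` numbers `ζ(2i+1)` and
`ζ(2i,1) + c_i ζ(2i+1)`, `1 ≤ i ≤ n`, at least `n + 1 - 2 h` do not lie in `Y`. -/
theorem result (Y : Submodule (algebraicClosure ℚ ℂ) ℂ)
    (hY : Module.Finite (algebraicClosure ℚ ℂ) Y) (c : ℕ → ℚ)
    (hc : ∀ i : ℕ, 1 ≤ i → 1 / 2 - (i : ℚ) ≤ c i) (n : ℕ) (hn : 1 ≤ n) :
    n + 1 ≤ ((Finset.Icc 1 n).filter (fun i => ((mzv ![2 * i + 1] : ℝ) : ℂ) ∉ Y)).card +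
      ((Finset.Icc 1 n).filter (fun i =>
        ((mzv ![2 * i, 1] + (c i : ℝ) * mzv ![2 * i + 1] : ℝ) : ℂ) ∉ Y)).card +
      2 * Module.finrank (algebraicClosure ℚ ℂ) Y :=
  Pool.Agent.Work.MP_4d52ff_nt.EP.pairs Y hY c
    (fun i hi => by have := hc i hi; linarith) n hn

end Pool.Agent.Results.MP_4d52ff_nt.EulerPairs
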