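import Pool.Agent.Work.MP_4d52ff_nt.R.Half2

set_option autoImplicit false

namespace Pool.Agent.Results.MP_4d52ff_nt.HalfOfDoubleZetas

/-- the multiple zeta value `ζ(k 0, ..., k (d-1))` -/
noncomputable def mzv {d : ℕ} (k : Fin d → ℕ) : ℝ :=
  ∑' n : {n : Fin d → ℕ // StrictAnti n ∧ ∀ i, 1 ≤ n i}, ∏ i, (((n.1 i : ℕ) : ℝ) ^ (k i))⁻¹

/-- the admissible indices of depth `d` and weight at most `N`; if `d ≠ 2`, only those with at
least one even argument -/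
def indices (d N : ℕ) : Finset (Fin d → ℕ) :=
  (Fintype.piFinset fun _ => Finset.range (N + 1)).filter
    (fun k => (∀ i, 1 ≤ k i) ∧ (∀ h : 0 < d, 2 ≤ k ⟨0, h⟩) ∧ ∑ i, k i ≤ N ∧ (d = 2 ∨ ∃ i, Even (k i)))

open Classical in
/-- Every space `Y` of finite dimension over the field of algebraic numbers contains at most about
a proportion `1 - 1/d` of the multiple zeta values of depth `d` and weight at most `N`. -/
theorem result (d : ℕ) (hd : 2 ≤ d) : ∃ C : ℝ, ∀ N : ℕ, 1 ≤ N →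
    ∀ Y : Submodule (algebraicClosure ℚ ℂ) ℂ, Module.Finite (algebraicClosure ℚ ℂ) Y →
    (((indices d N).filter (fun k => ((mzv k : ℝ) : ℂ) ∈ Y)).card : ℝ) ≤
      (1 - 1 / (d : ℝ)) * ((indices d N).card : ℝ) +
        C * ((Module.finrank (algebraicClosure ℚ ℂ) Y : ℝ) + 1) ^ ((1 : ℝ) / 2 ^ (d - 1)) *
          (N : ℝ) ^ ((d : ℝ) - 1 / 2 ^ (d - 1)) := by
  obtain ⟨C, -, h⟩ := Pool.Agent.Work.MP_4d52ff_nt.R.half2 d hd
  exact ⟨C, fun N hN Y hY => h N _ hN Y hY le_rfl⟩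

end Pool.Agent.Results.MP_4d52ff_nt.HalfOfDoubleZetas
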