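import Pool.Agent.Work.MP_4d52ff_nt.R.HalfW

set_option autoImplicit false

namespace Pool.Agent.Results.MP_4d52ff_nt.MostSingleWeights

/-- the multiple zeta value `ζ(k 0, ..., k (d-1))` -/
noncomputable def mzv {d : ℕ} (k : Fin d → ℕ) : ℝ :=
  ∑' n : {n : Fin d → ℕ // StrictAnti n ∧ ∀ i, 1 ≤ n i}, ∏ i, (((n.1 i : ℕ) : ℝ) ^ (k i))⁻¹

/-- the admissible indices of depth `d` and weight `w` with at least one even argument -/
def evenIndices (d w : ℕ) : Finset (Fin d → ℕ) :=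
  (Fintype.piFinset fun _ => Finset.range (w + 1)).filter
    (fun k => (∀ i, 1 ≤ k i) ∧ (∀ h : 0 < d, 2 ≤ k ⟨0, h⟩) ∧ ∑ i, k i = w ∧ ∃ i, Even (k i))

open Classical in
/-- All but `C (dim Y + 1) / ε ^ (2 ^ (d - 1))` of the weights `w` in `[N, 2 N]` have the property
that `Y` contains at most a proportion `1 - 1/d + ε` of the multiple zeta values of depth `d` and
weight `w` with an even argument. -/
theorem result (d : ℕ) (hd : 2 ≤ d) : ∃ C : ℝ, ∀ N : ℕ, 1 ≤ N → ∀ ε : ℝ, 0 < ε →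
    ∀ Y : Submodule (algebraicClosure ℚ ℂ) ℂ, Module.Finite (algebraicClosure ℚ ℂ) Y →
    (((Finset.Icc N (2 * N)).filter (fun w =>
      (1 - 1 / (d : ℝ) + ε) * ((evenIndices d w).card : ℝ) <
        (((evenIndices d w).filter (fun k => ((mzv k : ℝ) : ℂ) ∈ Y)).card : ℝ))).card : ℝ) ≤
      C * ((Module.finrank (algebraicClosure ℚ ℂ) Y : ℝ) + 1) / ε ^ (2 ^ (d - 1)) := by
  obtain ⟨C, -, h⟩ := Pool.Agent.Work.MP_4d52ff_nt.R.halfW d hd
  exact ⟨C, fun N hN ε hε Y hY => h N _ hN ε hε Y hY le_rfl⟩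

end Pool.Agent.Results.MP_4d52ff_nt.MostSingleWeights
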